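import Pool.Agent.Helper9.PL.TSaAux

/-!
# PL-2 (TSa) from PL-1 (DP)
-/

set_option autoImplicit false

open Set
open Pool.Agent.Helper83.OP Pool.Agent.Helper93.HH Pool.Agent.Helper43.HH

namespace Pool.Agent.Helper9.PL

theorem tsa_of (hDP : DPS) {V : Type} [Finite V] (H : SimpleGraph V) (X : Sym2 V → Sym2 V → Prop)
    (hX : ∀ f f', X f f' → X f' f)
    (h1 : ∀ f ∈ H.edgeSet, {f' | f' ∈ H.edgeSet ∧ X f f'}.ncard ≤ 1) (hP : PlanarLike H X)
    (U : Set V) {I : Type} [Finite I] (s b : I → V) (W : ∀ i, H.Walk (s i) (b i)) (l : ℕ)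
    (hs : ∀ i, s i ∉ U) (hb : ∀ i, b i ∈ U)
    (hin : ∀ i, ∀ z ∈ (W i).support, z ∈ U → z = b i)
    (hd : ∀ i j, i ≠ j → ∀ z ∈ (W i).support, z ∈ (W j).support → z ∈ U ∨ (z = s i ∧ z = s j))
    (hl : ∀ i, (W i).length ≤ l)
    (hne : ∀ i j, i ≠ j → s i = s j → b i ≠ b j) :
    Nat.card I ≤ 6472 * ((l + 1) * U.ncard + (Set.range s).ncard) := by
  classical
  have := Fintype.ofFinite V
  have := Fintype.ofFinite I
  have hw := weights H X hX h1 hP U s b W l hs hb hin hd hl hne
  obtain ⟨n, hn⟩ : ∃ n : V → ℕ, n = fun x => {i | s i = x}.ncard := ⟨_, rfl⟩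
  have hn' : ∀ x, {i | s i = x}.ncard = n x := fun x => by rw [hn]
  simp only [hn'] at hw
  obtain ⟨R, hR⟩ : ∃ R : Finset V, R = Finset.univ.filter fun x => l + 1 ≤ n x / 3 := ⟨_, rfl⟩
  have hRm : ∀ x, x ∈ R ↔ l + 1 ≤ n x / 3 := by
    intro x
    rw [hR, Finset.mem_filter]
    simp
  have hterm : ∀ x, (0 : ℝ) ≤ ((n x / 3 : ℕ) : ℝ) * (1 / (max (l + 1) (n x / 3) : ℕ)) :=
    fun x => by positivity
  have hlpos : (0 : ℝ) < (l : ℝ) + 1 := by positivity
  -- the number of rich points
  have hRc : (R.card : ℝ) ≤ 7 * (132 * U.ncard) := by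
    refine le_trans ?_ hw
    have h2 : (R.card : ℝ) = ∑ x ∈ R, (((n x / 3 : ℕ) : ℝ) * (1 / (max (l + 1) (n x / 3) : ℕ))) := by
      rw [Finset.card_eq_sum_ones, Nat.cast_sum]
      refine Finset.sum_congr rfl fun x hx => ?_
      rw [hRm] at hx
      rw [max_eq_right hx, mul_one_div, div_self]
      · simp
      · have : 0 < n x / 3 := by omega
        positivity
    rw [h2]
    exact Finset.sum_le_sum_of_subset_of_nonneg (Finset.subset_univ _) fun x _ _ => hterm x
  -- the tripods at the poor points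
  have hPc : (∑ x ∈ Rᶜ, ((n x / 3 : ℕ) : ℝ)) ≤ ((l : ℝ) + 1) * (7 * (132 * U.ncard)) := by
    have h2 : ∑ x ∈ Rᶜ, ((n x / 3 : ℕ) : ℝ) = ((l : ℝ) + 1) * ∑ x ∈ Rᶜ,
        (((n x / 3 : ℕ) : ℝ) * (1 / (max (l + 1) (n x / 3) : ℕ))) := by
      rw [Finset.mul_sum]
      refine Finset.sum_congr rfl fun x hx => ?_
      rw [Finset.mem_compl, hRm] at hx
      rw [max_eq_left (by omega)]
      push_cast
      field_simp
    rw [h2]
    refine mul_le_mul_of_nonneg_left ?_ hlpos.le
    refine le_trans ?_ hw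
    exact Finset.sum_le_sum_of_subset_of_nonneg (Finset.subset_univ _) fun x _ _ => hterm x
  have hRn : R.card ≤ 924 * U.ncard := by
    have : (R.card : ℝ) ≤ ((924 * U.ncard : ℕ) : ℝ) := by
      push_cast
      linarith
    exact_mod_cast this
  have hPn : ∑ x ∈ Rᶜ, n x / 3 ≤ 924 * ((l + 1) * U.ncard) := by
    have : ((∑ x ∈ Rᶜ, n x / 3 : ℕ) : ℝ) ≤ ((924 * ((l + 1) * U.ncard) : ℕ) : ℝ) := by
      push_cast
      linarith
    exact_mod_cast this
  -- the number of paths
  have hcard : Nat.card I = ∑ x ∈ R, n x + ∑ x ∈ Rᶜ, n x := by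
    rw [Finset.sum_add_sum_compl, Nat.card_eq_fintype_card, ← Finset.card_univ,
      Finset.card_eq_sum_card_fiberwise (f := s) (t := Finset.univ) (fun i _ => Finset.mem_univ _)]
    refine Finset.sum_congr rfl fun x _ => ?_
    rw [← hn', ← Set.ncard_coe_finset]
    congr 1
    ext i
    simp
  have hpoor : ∑ x ∈ Rᶜ, n x ≤ 3 * (924 * ((l + 1) * U.ncard)) + 2 * (Set.range s).ncard := by
    have h2 : ∀ x ∈ Rᶜ, n x ≤ 3 * (n x / 3) + 2 * (if x ∈ Set.range s then 1 else 0) := by
      intro x _
      by_cases hx : x ∈ Set.range s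
      · rw [if_pos hx]
        omega
      · rw [if_neg hx, ← hn']
        have : {i | s i = x} = ∅ := by
          ext i
          simp only [Set.mem_ofPred_eq, Set.mem_empty_iff_false, iff_false]
          intro h
          exact hx ⟨i, h⟩
        rw [this, Set.ncard_empty]
    refine (Finset.sum_le_sum h2).trans ?_
    rw [Finset.sum_add_distrib, ← Finset.mul_sum, ← Finset.mul_sum]
    refine Nat.add_le_add (Nat.mul_le_mul_left _ hPn) (Nat.mul_le_mul_left _ ?_)
    rw [← Finset.card_filter, ← Set.ncard_coe_finset]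
    refine Set.ncard_le_ncard ?_ (Set.toFinite _)
    intro x hx
    rw [Finset.mem_coe, Finset.mem_filter] at hx
    exact hx.2
  have hrich : ∑ x ∈ R, n x ≤ 4 * (l + 1) * (925 * U.ncard) := by
    have h2 : Nat.card {i // s i ∈ R} = ∑ x ∈ R, n x := by
      rw [Nat.card_eq_fintype_card, Fintype.card_subtype,
        Finset.card_eq_sum_card_fiberwise (f := s) (t := R) (fun i hi => by simpa using hi)]
      refine Finset.sum_congr rfl fun x hx => ?_
      rw [← hn', ← Set.ncard_coe_finset]
      congr 1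
      ext i
      simp only [Finset.coe_filter, Finset.mem_univ, true_and, Finset.mem_filter,
        Set.mem_ofPred_eq]
      constructor
      · rintro ⟨-, h⟩
        exact h
      · intro h
        exact ⟨by rw [h]; exact hx, h⟩
    rw [← h2]
    have hmem : ∀ i : {i // s i ∈ R}, s i.1 ∈ U ∪ (R : Set V) := fun i => Or.inr i.2
    have h3 := hDP H X hX h1 hP (U ∪ (R : Set V)) (fun i : {i // s i ∈ R} => s i.1)
      (fun i => b i.1) (fun i => W i.1) l hmem (fun i => Or.inl (hb i.1))
      (by
        intro i h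
        apply hs i.1
        rw [h]
        exact hb i.1)
      (by
        intro i z hz hzU
        rcases hzU with hzU | hzU
        · exact Or.inr (hin i.1 z hz hzU)
        · -- a rich point is the start of some path
          have hzR : z ∈ R := hzU
          rw [hRm] at hzR
          have h4 : {j | s j = z}.Nonempty := by
            rw [← Set.ncard_pos (Set.toFinite _), hn']
            omega
          obtain ⟨j, hj⟩ := h4
          by_cases hij : i.1 = j
          · left
            rw [hij]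
            exact hj.symm
          · rcases hd i.1 j hij z hz (mem_start hj) with h5 | ⟨h5, -⟩
            · exact Or.inr (hin i.1 z hz h5)
            · exact Or.inl h5)
      (by
        intro i j hij z hz hz'
        have hij' : i.1 ≠ j.1 := fun h => hij (Subtype.ext h)
        rcases hd i.1 j.1 hij' z hz hz' with h5 | ⟨h5, -⟩
        · exact Or.inl h5
        · rw [h5]
          exact Or.inr i.2)
      (fun i => hl i.1)
      (by
        intro i j hij h
        have hij' : i.1 ≠ j.1 := fun h => hij (Subtype.ext h)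
        rw [Sym2.eq_iff] at h
        rcases h with ⟨h5, h6⟩ | ⟨h5, -⟩
        · exact hne i.1 j.1 hij' h5 h6
        · apply hs i.1
          rw [h5]
          exact hb j.1)
    refine h3.trans (Nat.mul_le_mul_left _ ?_)
    refine (Set.ncard_union_le _ _).trans ?_
    rw [Set.ncard_coe_finset]
    omega
  rw [hcard]
  have h7 : 4 * (l + 1) * (925 * U.ncard) = 3700 * ((l + 1) * U.ncard) := by ring
  rw [h7] at hrich
  omega

end Pool.Agent.Helper9.PL
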