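import Pool.Agent.Helper9.PL.TSaOf
import Pool.Agent.Helper23.PL.SpecA

/-!
# PL-2 (TSa)
-/

set_option autoImplicit false

open Set
open Pool.Agent.Helper83.OP Pool.Agent.Helper93.HH

namespace Pool.Agent.Helper9.PL

/-- **PL-2 (TSa).** Paths from `s i` to `b i ∈ U`, disjoint but for common starting points. -/
theorem TSa : ∃ A : ℕ, ∀ {V : Type} [Finite V] (H : SimpleGraph V) (X : Sym2 V → Sym2 V → Prop),
    (∀ f f', X f f' → X f' f) →
    (∀ f ∈ H.edgeSet, {f' | f' ∈ H.edgeSet ∧ X f f'}.ncard ≤ 1) → PlanarLike H X →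
    ∀ (U : Set V) {I : Type} [Finite I] (s b : I → V) (W : ∀ i, H.Walk (s i) (b i)) (l : ℕ),
    (∀ i, s i ∉ U) → (∀ i, b i ∈ U) → (∀ i, ∀ z ∈ (W i).support, z ∈ U → z = b i) →
    (∀ i j, i ≠ j → ∀ z ∈ (W i).support, z ∈ (W j).support → z ∈ U ∨ (z = s i ∧ z = s j)) →
    (∀ i, (W i).length ≤ l) →
    (∀ i j, i ≠ j → s i = s j → b i ≠ b j) →
    Nat.card I ≤ A * ((l + 1) * U.ncard + (Set.range s).ncard) := by
  refine ⟨6472, ?_⟩
  intro V _ H X hX h1 hP U I _ s b W l hs hb hin hd hl hne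
  exact tsa_of Pool.Agent.Helper23.PL.DP H X hX h1 hP U s b W l hs hb hin hd hl hne

end Pool.Agent.Helper9.PL
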