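import Pool.Agent.Helper43.HH.Energy

/-!
# PL-2 (TSa): paths with common starting points, from DP (paths with different pairs of ends)
-/

set_option autoImplicit false

open Set
open Pool.Agent.Helper83.OP Pool.Agent.Helper93.HH Pool.Agent.Helper43.HH

namespace Pool.Agent.Helper9.PL

/-- the statement of PL-1 -/
def DPS : Prop :=
  ∀ {V : Type} [Finite V] (H : SimpleGraph V) (X : Sym2 V → Sym2 V → Prop),
    (∀ f f', X f f' → X f' f) →
    (∀ f ∈ H.edgeSet, {f' | f' ∈ H.edgeSet ∧ X f f'}.ncard ≤ 1) → PlanarLike H X →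
    ∀ (U : Set V) {I : Type} [Finite I] (a b : I → V) (W : ∀ i, H.Walk (a i) (b i)) (l : ℕ),
    (∀ i, a i ∈ U) → (∀ i, b i ∈ U) → (∀ i, a i ≠ b i) →
    (∀ i, ∀ z ∈ (W i).support, z ∈ U → z = a i ∨ z = b i) →
    (∀ i j, i ≠ j → ∀ z ∈ (W i).support, z ∈ (W j).support → z ∈ U) →
    (∀ i, (W i).length ≤ l) →
    (∀ i j, i ≠ j → s(a i, b i) ≠ s(a j, b j)) →
    Nat.card I ≤ 4 * (l + 1) * U.ncard

section

variable {V : Type} {H : SimpleGraph V} {U : Set V} {I : Type} {s b : I → V}
  {W : ∀ i, H.Walk (s i) (b i)}

/-- an edge is on at most one of the paths -/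
theorem edge_uniq
    (hin : ∀ i, ∀ z ∈ (W i).support, z ∈ U → z = b i)
    (hd : ∀ i j, i ≠ j → ∀ z ∈ (W i).support, z ∈ (W j).support → z ∈ U ∨ (z = s i ∧ z = s j))
    (hne : ∀ i j, i ≠ j → s i = s j → b i ≠ b j) {i j : I} {f : Sym2 V}
    (h : f ∈ (W i).edges) (h' : f ∈ (W j).edges) : i = j := by
  induction f with
  | h x y =>
    by_contra hij
    have hxy : x ≠ y := ((W i).adj_of_mem_edges h).ne
    have hx := (W i).fst_mem_support_of_mem_edges h
    have hy := (W i).snd_mem_support_of_mem_edges h
    have hx' := (W j).fst_mem_support_of_mem_edges h'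
    have hy' := (W j).snd_mem_support_of_mem_edges h'
    rcases hd i j hij x hx hx' with h1 | ⟨h1, h1'⟩ <;> rcases hd i j hij y hy hy' with h2 | ⟨h2, h2'⟩
    · exact hxy ((hin i x hx h1).trans (hin i y hy h2).symm)
    · refine hne i j hij (h2.symm.trans h2') ?_
      exact (hin i x hx h1).symm.trans (hin j x hx' h1)
    · refine hne i j hij (h1.symm.trans h1') ?_
      exact (hin i y hy h2).symm.trans (hin j y hy' h2)
    · exact hxy (h1.trans h2.symm)

theorem mem_start {i : I} {x : V} (h : s i = x) : x ∈ (W i).support := by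
  subst h
  exact (W i).start_mem_support

/-- a choice of disjoint triples in the fibres of `s` -/
theorem exists_triples [Finite I] (s : I → V) (x : V) :
    ∃ e : Fin ({i | s i = x}.ncard / 3) → Fin 3 → I,
      (∀ a j, s (e a j) = x) ∧ ∀ a j a' j', e a j = e a' j' → a = a' ∧ j = j' := by
  classical
  have := Fintype.ofFinite I
  have h1 : Nat.card (Fin ({i | s i = x}.ncard / 3) × Fin 3) ≤ Nat.card ({i | s i = x} : Set I) := by
    rw [Nat.card_prod, Nat.card_fin, Nat.card_fin, Nat.card_coe_set_eq]
    exact Nat.div_mul_le_self _ _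
  rw [Nat.card_eq_fintype_card, Nat.card_eq_fintype_card] at h1
  obtain ⟨g⟩ := Function.Embedding.nonempty_of_card_le h1
  refine ⟨fun a j => (g (a, j)).1, fun a j => (g (a, j)).2, ?_⟩
  intro a j a' j' h
  have h2 := g.injective (Subtype.ext h)
  exact ⟨congrArg Prod.fst h2, congrArg Prod.snd h2⟩

end

section

variable {V : Type} {H : SimpleGraph V} {U : Set V}

theorem vs_card [Fintype V] [DecidableEq V] (T : Tri H U) (l : ℕ) (hl : ∀ j, (T.W j).length ≤ l)
    [Fintype T.vs] : T.vs.toFinset.card ≤ 3 * (l + 1) := by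
  classical
  have h1 : T.vs.toFinset ⊆ (Finset.univ : Finset (Fin 3)).biUnion fun j => (T.W j).support.toFinset := by
    intro v hv
    rw [Set.mem_toFinset] at hv
    obtain ⟨-, j, hj⟩ := hv
    rw [Finset.mem_biUnion]
    exact ⟨j, Finset.mem_univ _, List.mem_toFinset.2 hj⟩
  refine (Finset.card_le_card h1).trans ?_
  have h2 := Finset.card_biUnion_le_card_mul (Finset.univ : Finset (Fin 3))
    (fun j => (T.W j).support.toFinset) (l + 1) (by
      intro j _
      refine (List.toFinset_card_le _).trans ?_
      rw [SimpleGraph.Walk.length_support]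
      have := hl j
      omega)
  simpa using h2

theorem es_card [Fintype V] [DecidableEq V] (T : Tri H U) (l : ℕ) (hl : ∀ j, (T.W j).length ≤ l)
    [Fintype T.es] : T.es.toFinset.card ≤ 3 * l := by
  classical
  have h1 : T.es.toFinset ⊆ (Finset.univ : Finset (Fin 3)).biUnion fun j => (T.W j).edges.toFinset := by
    intro v hv
    rw [Set.mem_toFinset] at hv
    obtain ⟨j, hj⟩ := hv
    rw [Finset.mem_biUnion]
    exact ⟨j, Finset.mem_univ _, List.mem_toFinset.2 hj⟩
  refine (Finset.card_le_card h1).trans ?_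
  have h2 := Finset.card_biUnion_le_card_mul (Finset.univ : Finset (Fin 3))
    (fun j => (T.W j).edges.toFinset) l (by
      intro j _
      refine (List.toFinset_card_le _).trans ?_
      rw [SimpleGraph.Walk.length_edges]
      exact hl j)
  simpa using h2

end

/-- rich and poor starting points -/
theorem weights {V : Type} [Fintype V] (H : SimpleGraph V) (X : Sym2 V → Sym2 V → Prop)
    (hX : ∀ f f', X f f' → X f' f)
    (h1 : ∀ f ∈ H.edgeSet, {f' | f' ∈ H.edgeSet ∧ X f f'}.ncard ≤ 1) (hP : PlanarLike H X)
    (U : Set V) {I : Type} [Finite I] (s b : I → V) (W : ∀ i, H.Walk (s i) (b i)) (l : ℕ)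
    (hs : ∀ i, s i ∉ U) (hb : ∀ i, b i ∈ U)
    (hin : ∀ i, ∀ z ∈ (W i).support, z ∈ U → z = b i)
    (hd : ∀ i j, i ≠ j → ∀ z ∈ (W i).support, z ∈ (W j).support → z ∈ U ∨ (z = s i ∧ z = s j))
    (hl : ∀ i, (W i).length ≤ l)
    (hne : ∀ i j, i ≠ j → s i = s j → b i ≠ b j) :
    ∑ x : V, (({i | s i = x}.ncard / 3 : ℕ) : ℝ) *
      (1 / (max (l + 1) ({i | s i = x}.ncard / 3) : ℕ)) ≤ 7 * (132 * U.ncard) := by
  classical
  choose e he hinj using exists_triples s
  let J : Type := Σ x : V, Fin ({i | s i = x}.ncard / 3)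
  -- the tripods
  let T : J → Tri H U := fun p =>
    { c := p.1
      b := fun j => b (e p.1 p.2 j)
      W := fun j => (W (e p.1 p.2 j)).copy (he p.1 p.2 j) rfl
      c_U := by
        rw [← he p.1 p.2 0]
        exact hs _
      b_U := fun j => hb _
      b_inj := by
        intro j j' hjj
        by_contra hcon
        refine hne (e p.1 p.2 j) (e p.1 p.2 j') ?_ ?_ hjj
        · intro h
          exact hcon (hinj _ _ _ _ _ h).2
        · rw [he, he]
      inner := by
        intro j z hz hzU
        rw [SimpleGraph.Walk.support_copy] at hz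
        exact hin _ z hz hzU }
  have hTs : ∀ (p : J) v, v ∈ (T p).vs ↔ v ∉ U ∧ ∃ j, v ∈ (W (e p.1 p.2 j)).support := by
    intro p v
    show (v ∉ U ∧ ∃ j, v ∈ ((W (e p.1 p.2 j)).copy (he p.1 p.2 j) rfl).support) ↔ _
    simp only [SimpleGraph.Walk.support_copy]
  have hTe : ∀ (p : J) f, f ∈ (T p).es ↔ ∃ j, f ∈ (W (e p.1 p.2 j)).edges := by
    intro p f
    show (∃ j, f ∈ ((W (e p.1 p.2 j)).copy (he p.1 p.2 j) rfl).edges) ↔ _
    simp only [SimpleGraph.Walk.edges_copy]
  have hTl : ∀ (p : J) j, ((T p).W j).length ≤ l := by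
    intro p j
    show ((W (e p.1 p.2 j)).copy (he p.1 p.2 j) rfl).length ≤ l
    rw [SimpleGraph.Walk.length_copy]
    exact hl _
  let mu : J → ℝ := fun p => 1 / (max (l + 1) ({i | s i = p.1}.ncard / 3) : ℕ)
  have hmu0 : ∀ p, 0 ≤ mu p := fun p => by positivity
  have hmul : ∀ p, mu p ≤ 1 / ((l : ℝ) + 1) := by
    intro p
    show 1 / ((max (l + 1) ({i | s i = p.1}.ncard / 3) : ℕ) : ℝ) ≤ 1 / ((l : ℝ) + 1)
    apply one_div_le_one_div_of_le (by positivity)
    have : l + 1 ≤ max (l + 1) ({i | s i = p.1}.ncard / 3) := le_max_left _ _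
    exact_mod_cast this
  -- the same index
  have hsame : ∀ p p' : J, ∀ j j', e p.1 p.2 j = e p'.1 p'.2 j' → p' = p := by
    rintro ⟨x, a⟩ ⟨x', a'⟩ j j' h
    have hx : x' = x := by
      rw [← he x a j, ← he x' a' j']
      exact (congrArg s h).symm
    subst hx
    have h2 : a = a' := (hinj _ _ _ _ _ h).1
    rw [h2]
  have hkey := el_uniform X hX h1 hP (Finset.univ : Finset J) T mu (fun p _ => hmu0 p) 7
    (by norm_num) (by
      intro p _
      have hvert : ∀ v ∈ (T p).vs.toFinset, v ≠ p.1 →
          phiV Finset.univ T mu v ≤ 1 / ((l : ℝ) + 1) := by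
        intro v hv hvp
        rw [Set.mem_toFinset, hTs] at hv
        obtain ⟨hvU, j, hj⟩ := hv
        have hsub : (Finset.univ.filter fun p' : J => v ∈ (T p').vs) ⊆ {p} := by
          intro p' hp'
          rw [Finset.mem_filter, hTs] at hp'
          obtain ⟨-, -, j', hj'⟩ := hp'
          rw [Finset.mem_singleton]
          by_cases hee : e p.1 p.2 j = e p'.1 p'.2 j'
          · exact hsame p p' j j' hee
          · exfalso
            rcases hd _ _ hee v hj hj' with h | ⟨h, -⟩
            · exact hvU h
            · exact hvp (h.trans (he _ _ _))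
        unfold phiV
        refine (Finset.sum_le_sum_of_subset_of_nonneg hsub fun q _ _ => hmu0 q).trans ?_
        rw [Finset.sum_singleton]
        exact hmul p
      have hcen : phiV Finset.univ T mu p.1 ≤ 1 := by
        unfold phiV
        have hsub : (Finset.univ.filter fun p' : J => p.1 ∈ (T p').vs) ⊆
            (Finset.univ : Finset (Fin ({i | s i = p.1}.ncard / 3))).map
              ⟨fun a => (⟨p.1, a⟩ : J), by
                intro a a' h
                exact eq_of_heq (Sigma.mk.inj h).2⟩ := by
          intro p' hp'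
          rw [Finset.mem_filter, hTs] at hp'
          obtain ⟨-, -, j', hj'⟩ := hp'
          have hxx : p'.1 = p.1 := by
            by_cases hee : e p.1 p.2 0 = e p'.1 p'.2 j'
            · rw [hsame p p' 0 j' hee]
            · have hst : p.1 ∈ (W (e p.1 p.2 0)).support := mem_start (he _ _ _)
              rcases hd _ _ hee p.1 hst hj' with h | ⟨-, h⟩
              · exact absurd h (by rw [← he p.1 p.2 0]; exact hs _)
              · rw [he] at h
                exact h.symm
          obtain ⟨x', a'⟩ := p'
          obtain ⟨x, a⟩ := p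
          simp only at hxx
          subst hxx
          rw [Finset.mem_map]
          exact ⟨a', Finset.mem_univ _, rfl⟩
        refine (Finset.sum_le_sum_of_subset_of_nonneg hsub fun q _ _ => hmu0 q).trans ?_
        rw [Finset.sum_map]
        show ∑ a : Fin ({i | s i = p.1}.ncard / 3),
          (1 : ℝ) / ((max (l + 1) ({i | s i = p.1}.ncard / 3) : ℕ) : ℝ) ≤ 1
        rw [Finset.sum_const, Finset.card_univ, Fintype.card_fin, nsmul_eq_mul, mul_one_div]
        apply div_le_one_of_le₀
        · exact_mod_cast le_max_right _ _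
        · positivity
      have hvs : ∑ v ∈ (T p).vs.toFinset, phiV Finset.univ T mu v ≤ 1 + 3 := by
        have hsplit := Finset.sum_filter_add_sum_filter_not (T p).vs.toFinset (fun v => v = p.1)
          (fun v => phiV Finset.univ T mu v)
        rw [← hsplit]
        refine add_le_add ?_ ?_
        · refine (Finset.sum_le_sum_of_subset_of_nonneg (t := {p.1}) ?_ ?_).trans ?_
          · intro v hv
            rw [Finset.mem_filter] at hv
            rw [Finset.mem_singleton]
            exact hv.2
          · intro v _ _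
            exact Finset.sum_nonneg fun q _ => hmu0 q
          · rw [Finset.sum_singleton]
            exact hcen
        · have h3 : ∑ v ∈ (T p).vs.toFinset with ¬ v = p.1, phiV Finset.univ T mu v ≤
              ((T p).vs.toFinset.filter fun v => ¬ v = p.1).card • (1 / ((l : ℝ) + 1)) := by
            refine Finset.sum_le_card_nsmul _ _ _ ?_
            intro v hv
            rw [Finset.mem_filter] at hv
            exact hvert v hv.1 hv.2
          refine h3.trans ?_
          have h4 : ((T p).vs.toFinset.filter fun v => ¬ v = p.1).card ≤ 3 * (l + 1) :=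
            (Finset.card_filter_le _ _).trans (vs_card (T p) l (hTl p))
          rw [nsmul_eq_mul]
          have h5 : (((T p).vs.toFinset.filter fun v => ¬ v = p.1).card : ℝ) ≤ 3 * ((l : ℝ) + 1) := by
            exact_mod_cast h4
          have h6 : (0 : ℝ) < (l : ℝ) + 1 := by positivity
          rw [mul_one_div, div_le_iff₀ h6]
          exact h5
      have hes : ∑ f ∈ (T p).es.toFinset, phiE Finset.univ T mu f ≤ 3 := by
        have h3 : ∑ f ∈ (T p).es.toFinset, phiE Finset.univ T mu f ≤
            (T p).es.toFinset.card • (1 / ((l : ℝ) + 1)) := by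
          refine Finset.sum_le_card_nsmul _ _ _ ?_
          intro f hf
          rw [Set.mem_toFinset, hTe] at hf
          obtain ⟨j, hj⟩ := hf
          have hsub : (Finset.univ.filter fun p' : J => f ∈ (T p').es) ⊆ {p} := by
            intro p' hp'
            rw [Finset.mem_filter, hTe] at hp'
            obtain ⟨-, j', hj'⟩ := hp'
            rw [Finset.mem_singleton]
            exact hsame p p' j j' (edge_uniq hin hd hne hj hj')
          unfold phiE
          refine (Finset.sum_le_sum_of_subset_of_nonneg hsub fun q _ _ => hmu0 q).trans ?_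
          rw [Finset.sum_singleton]
          exact hmul p
        refine h3.trans ?_
        have h4 := es_card (T p) l (hTl p)
        rw [nsmul_eq_mul]
        have h5 : ((T p).es.toFinset.card : ℝ) ≤ 3 * (l : ℝ) := by
          exact_mod_cast h4
        have h6 : (0 : ℝ) < (l : ℝ) + 1 := by positivity
        rw [mul_one_div, div_le_iff₀ h6]
        linarith
      linarith)
  refine le_trans (le_of_eq ?_) hkey
  show _ = ∑ p : (Σ x : V, Fin ({i | s i = x}.ncard / 3)), mu p
  rw [Fintype.sum_sigma]
  refine Finset.sum_congr rfl fun x _ => ?_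
  show _ = ∑ a : Fin ({i | s i = x}.ncard / 3),
    (1 : ℝ) / ((max (l + 1) ({i | s i = x}.ncard / 3) : ℕ) : ℝ)
  rw [Finset.sum_const, Finset.card_univ, Fintype.card_fin, nsmul_eq_mul]

end Pool.Agent.Helper9.PL
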